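import Pool.Agent.MP_3173ec_pr.Mg.NegForm

open Pool.Agent.MP_3173ec_pr

/-- For even `n`, the expected edge cover time of the greedy random walk on `K_n` exceeds the
number of edges by at least `(n-1)/2 * H_{n/2-1}`, which is of order `n log n`; hence no bound
`C(n,2) + C n` holds for all large `n`. -/
theorem Pool.Agent.Results.MP_3173ec_pr.EvenNLogN.result :
    (∀ (n : ℕ) (hn : 2 ≤ n), Even n → ∀ v : Fin n,
      ENNReal.ofReal ((n.choose 2 : ℝ) + ((n : ℝ) - 1) / 2 * (harmonic (n / 2 - 1) : ℝ)) ≤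
        expCover hn v) ∧
    ¬ ∃ (C : ℝ) (N : ℕ), ∀ (n : ℕ) (hn : 2 ≤ n), N ≤ n → ∃ v : Fin n,
      expCover hn v ≤ ENNReal.ofReal ((n.choose 2 : ℝ) + C * (n : ℝ)) :=
  ⟨fun _ hn he v => even_lower hn he v, neg_form⟩
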