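import Pool.Agent.MP_3173ec_pr.Mg.OddLower

open Pool.Agent.MP_3173ec_pr

/-- For odd `n ≥ 5`, the expected edge cover time of the greedy random walk on `K_n` exceeds the
number of edges by a linear amount: between `(n-1)/723` and `28 (n-1)`. -/
theorem Pool.Agent.Results.MP_3173ec_pr.OddLinear.result :
    ∀ (n : ℕ) (hn : 2 ≤ n), Odd n → 5 ≤ n → ∀ v : Fin n,
      ENNReal.ofReal ((n.choose 2 : ℝ) + ((n : ℝ) - 1) / 723) ≤ expCover hn v ∧
        expCover hn v ≤ ENNReal.ofReal ((n.choose 2 : ℝ) + 28 * ((n : ℝ) - 1)) :=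
  fun _ hn ho h5 v => ⟨odd_lower hn h5 ho v, odd_upper hn ho v⟩
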